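import Mathlib

/-!
Spaces of countable structures, the logic action, Borel completeness and Borel reductions
(in the sense of functors) between the action groupoids.
-/

set_option autoImplicit false

open MeasureTheory Set

namespace Pool.Agent.V1255F

/-- The space `Mod(L)` of `L`-structures with universe `ℕ`: an interpretation of every function
symbol and of every relation symbol; it carries the product σ-algebra. -/
abbrev Mod (L : FirstOrder.Language.{0, 0}) : Type :=
  (∀ n, L.Functions n → (Fin n → ℕ) → ℕ) × (∀ n, L.Relations n → (Fin n → ℕ) → Prop)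

/-- `L` is a countable language. -/
def CountableLang (L : FirstOrder.Language.{0, 0}) : Prop :=
  (∀ n, Countable (L.Functions n)) ∧ ∀ n, Countable (L.Relations n)

/-- The logic action of `S_∞` on `Mod(L)`: `g` is an isomorphism from `x` to `act g x`. -/
def act {L : FirstOrder.Language.{0, 0}} (g : Equiv.Perm ℕ) (x : Mod L) : Mod L :=
  (fun n F v => g (x.1 n F fun i => g.symm (v i)), fun n R v => x.2 n R fun i => g.symm (v i))

/-- Isomorphism of structures: being in the same orbit of the logic action. -/
def Isom {L : FirstOrder.Language.{0, 0}} (x y : Mod L) : Prop := ∃ g : Equiv.Perm ℕ, act g x = y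

/-- A class of structures: an isomorphism-invariant Borel subset of `Mod(L)`. -/
def IsClass {L : FirstOrder.Language.{0, 0}} (C : Set (Mod L)) : Prop :=
  MeasurableSet C ∧ ∀ (g : Equiv.Perm ℕ) (x : Mod L), x ∈ C → act g x ∈ C

/-- Borel complete classes. -/
def BorelComplete {L : FirstOrder.Language.{0, 0}} (C : Set (Mod L)) : Prop :=
  IsClass C ∧ ∀ L' : FirstOrder.Language.{0, 0}, CountableLang L' → ∀ C' : Set (Mod L'), IsClass C' →
    ∃ f : C' → C, Measurable f ∧
      ∀ x y : C', Isom (x : Mod L') (y : Mod L') ↔ Isom (f x : Mod L) (f y : Mod L)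

/-- The Borel structure of `S_∞`: generated by the evaluations. -/
instance instMeasurableSpacePerm : MeasurableSpace (Equiv.Perm ℕ) :=
  MeasurableSpace.comap (fun (g : Equiv.Perm ℕ) (n : ℕ) => g n) inferInstance

/-- Borel reduction between the action groupoids `S_∞ ⋉ C` and `S_∞ ⋉ D`. An arrow of `S_∞ ⋉ C` is a
pair `(g, x)` with source `x` and range `g • x`, and `(h, g • x) (g, x) = (h g, x)`. A functor sends
the object `x` to `obj x` and the arrow `(g, x)` to the arrow `(arr (g, x), obj x)`, which has to have
range `obj (g • x)`; it has to preserve identities and composition. It is Borel on arrows, and it is a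
reduction if objects with isomorphic images are isomorphic. -/
def GroupoidReducible {L L' : FirstOrder.Language.{0, 0}} (C : Set (Mod L)) (D : Set (Mod L')) : Prop :=
  ∃ (obj : C → D) (arr : Equiv.Perm ℕ × C → Equiv.Perm ℕ),
    Measurable (fun p : Equiv.Perm ℕ × C => (arr p, obj p.2)) ∧
    (∀ (g : Equiv.Perm ℕ) (x y : C), act g (x : Mod L) = y → act (arr (g, x)) (obj x : Mod L') = obj y) ∧
    (∀ x : C, arr (1, x) = 1) ∧
    (∀ (h g : Equiv.Perm ℕ) (x y : C), act g (x : Mod L) = y → arr (h * g, x) = arr (h, y) * arr (g, x)) ∧
    ∀ x y : C, Isom (obj x : Mod L') (obj y : Mod L') → Isom (x : Mod L) (y : Mod L)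

theorem act_one {L : FirstOrder.Language.{0, 0}} (x : Mod L) : act 1 x = x := rfl

theorem act_mul {L : FirstOrder.Language.{0, 0}} (g h : Equiv.Perm ℕ) (x : Mod L) : act (g * h) x = act g (act h x) := rfl

theorem act_eq_iff {L : FirstOrder.Language.{0, 0}} (g : Equiv.Perm ℕ) (x y : Mod L) : act g x = y ↔
    (∀ n (F : L.Functions n) (v : Fin n → ℕ), y.1 n F (fun i => g (v i)) = g (x.1 n F v)) ∧
    ∀ n (R : L.Relations n) (v : Fin n → ℕ), x.2 n R v ↔ y.2 n R (fun i => g (v i)) := by
  constructor
  · rintro rfl
    refine ⟨fun n F v => ?_, fun n R v => ?_⟩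
    · simp [act]
    · simp [act]
  · rintro ⟨h1, h2⟩
    refine Prod.ext ?_ ?_
    · funext n F v
      have := h1 n F (fun i => g.symm (v i))
      simp only [Equiv.apply_symm_apply] at this
      exact this.symm
    · funext n R v
      have := h2 n R (fun i => g.symm (v i))
      simp only [Equiv.apply_symm_apply] at this
      exact propext this

/-- the language with countably many relation symbols of each arity -/
def L0 : FirstOrder.Language.{0, 0} := ⟨fun _ => Empty, fun _ => ℕ⟩

theorem countable_L0 : CountableLang L0 :=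
  ⟨fun _ => inferInstanceAs (Countable Empty), fun _ => inferInstanceAs (Countable ℕ)⟩

/-- the `k`-th relation symbol of arity `n` -/
def sym (n k : ℕ) : L0.Relations n := (k : ℕ)

/-- the relation named by the first binary symbol -/
def ordRel (x : Mod L0) (a b : ℕ) : Prop := x.2 2 (sym 2 0) ![a, b]

/-- the class of the structures in which the first binary relation is a strict linear order -/
def Ordered : Set (Mod L0) :=
  {x | (∀ a, ¬ ordRel x a a) ∧ (∀ a b c, ordRel x a b → ordRel x b c → ordRel x a c) ∧
    ∀ a b, a ≠ b → ordRel x a b ∨ ordRel x b a}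

theorem measurable_rel {L : FirstOrder.Language.{0, 0}} (n : ℕ) (R : L.Relations n) (v : Fin n → ℕ) :
    Measurable (fun x : Mod L => x.2 n R v) :=
  (measurable_pi_apply v).comp ((measurable_pi_apply R).comp ((measurable_pi_apply n).comp measurable_snd))

theorem measurable_fun {L : FirstOrder.Language.{0, 0}} (n : ℕ) (F : L.Functions n) (v : Fin n → ℕ) :
    Measurable (fun x : Mod L => x.1 n F v) :=
  (measurable_pi_apply v).comp ((measurable_pi_apply F).comp ((measurable_pi_apply n).comp measurable_fst))

theorem ordRel_act (g : Equiv.Perm ℕ) (x : Mod L0) (a b : ℕ) :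
    ordRel (act g x) a b ↔ ordRel x (g.symm a) (g.symm b) := by
  have : (fun i => g.symm ((![a, b] : Fin 2 → ℕ) i)) = ![g.symm a, g.symm b] := by
    funext i
    fin_cases i <;> rfl
  unfold ordRel act
  simp only [this]

theorem isClass_univ : IsClass (Set.univ : Set (Mod L0)) := ⟨MeasurableSet.univ, fun _ _ _ => trivial⟩

theorem isClass_ordered : IsClass Ordered := by
  refine ⟨?_, ?_⟩
  · have h : ∀ a b, MeasurableSet {x : Mod L0 | ordRel x a b} := fun a b =>
      measurableSet_setOfPred.2 (measurable_rel 2 (sym 2 0) ![a, b])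
    have e : Ordered = (⋂ a, {x : Mod L0 | ordRel x a a}ᶜ) ∩
        ((⋂ a, ⋂ b, ⋂ c, ({x : Mod L0 | ordRel x a b}ᶜ ∪ ({x | ordRel x b c}ᶜ ∪ {x | ordRel x a c}))) ∩
        ⋂ a, ⋂ b, ({x : Mod L0 | a = b} ∪ ({x | ordRel x a b} ∪ {x | ordRel x b a}))) := by
      ext x
      simp only [Ordered, mem_ofPred_eq, mem_inter_iff, mem_iInter, mem_compl_iff, mem_union]
      refine and_congr_right fun _ => and_congr ?_ ?_
      · refine forall_congr' fun a => forall_congr' fun b => forall_congr' fun c => ?_
        tauto
      · refine forall_congr' fun a => forall_congr' fun b => ?_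
        tauto
    rw [e]
    refine (MeasurableSet.iInter fun a => (h a a).compl).inter ((MeasurableSet.iInter fun a =>
      MeasurableSet.iInter fun b => MeasurableSet.iInter fun c =>
        (h a b).compl.union ((h b c).compl.union (h a c))).inter ?_)
    exact MeasurableSet.iInter fun a => MeasurableSet.iInter fun b =>
      (MeasurableSet.const _).union ((h a b).union (h b a))
  · rintro g x ⟨h1, h2, h3⟩
    refine ⟨fun a => ?_, fun a b c => ?_, fun a b hab => ?_⟩
    · rw [ordRel_act]; exact h1 _
    · simp only [ordRel_act]; exact h2 _ _ _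
    · simp only [ordRel_act]
      exact h3 _ _ fun h => hab (g.symm.injective h)

end Pool.Agent.V1255F
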