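import Mathlib

/-!
A countable dense linear order with a colouring by `ℕ`, every colour dense, such that every
permutation of the colours is induced by an automorphism of the order (back and forth).
-/

set_option autoImplicit false

open Order

namespace Pool.Agent.V1255F

/-- pairs (rational, colour); ordered by `q + n √2` -/
def W : Type := ℚ × ℕ

instance : Countable W := inferInstanceAs (Countable (ℚ × ℕ))
instance : Infinite W := inferInstanceAs (Infinite (ℚ × ℕ))
instance : Nonempty W := ⟨((0, 0) : ℚ × ℕ)⟩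

def color (p : W) : ℕ := Prod.snd (p : ℚ × ℕ)

noncomputable def iota (p : W) : ℝ := ((Prod.fst (p : ℚ × ℕ) : ℚ) : ℝ) + (color p : ℝ) * Real.sqrt 2

theorem iota_inj : Function.Injective iota := by
  rintro ⟨q, n⟩ ⟨q', n'⟩ h
  have h' : (q : ℝ) + (n : ℝ) * Real.sqrt 2 = (q' : ℝ) + (n' : ℝ) * Real.sqrt 2 := h
  have hn : n = n' := by
    by_contra hne
    have hne' : ((n : ℝ) - n') ≠ 0 := by
      intro h0
      apply hne
      have : (n : ℝ) = n' := by linarith
      exact_mod_cast this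
    have h2 : Real.sqrt 2 = (((q' - q) / ((n : ℚ) - n') : ℚ) : ℝ) := by
      push_cast
      rw [eq_div_iff hne']
      linarith
    exact irrational_sqrt_two ⟨_, h2.symm⟩
  subst hn
  have : (q : ℝ) = q' := by linarith
  have : q = q' := by exact_mod_cast this
  subst this
  rfl

noncomputable instance : LinearOrder W := LinearOrder.lift' iota iota_inj

theorem lt_iff (a b : W) : a < b ↔ iota a < iota b := Iff.rfl

/-- every colour is dense, in the strong form for finite sets -/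
theorem between (k : ℕ) (lo hi : Finset W) (h : ∀ x ∈ lo, ∀ y ∈ hi, x < y) :
    ∃ m : W, color m = k ∧ (∀ x ∈ lo, x < m) ∧ ∀ y ∈ hi, m < y := by
  classical
  obtain ⟨r, hr1, hr2⟩ := Order.exists_between_finsets (lo.image iota) (hi.image iota) (by
    intro x hx y hy
    rw [Finset.mem_image] at hx hy
    obtain ⟨x', hx', rfl⟩ := hx
    obtain ⟨y', hy', rfl⟩ := hy
    exact h x' hx' y' hy')
  obtain ⟨r', hr1', hr2'⟩ := Order.exists_between_finsets ({r} : Finset ℝ) (hi.image iota) (by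
    intro x hx y hy
    rw [Finset.mem_singleton] at hx
    subst hx
    exact hr2 y hy)
  have hrr : r < r' := hr1' r (Finset.mem_singleton_self r)
  obtain ⟨q, hq1, hq2⟩ := exists_rat_btwn (show r - (k : ℝ) * Real.sqrt 2 < r' - (k : ℝ) * Real.sqrt 2 by linarith)
  refine ⟨((q, k) : ℚ × ℕ), rfl, ?_, ?_⟩
  · intro x hx
    have h1 := hr1 (iota x) (Finset.mem_image_of_mem _ hx)
    change iota x < (q : ℝ) + (k : ℝ) * Real.sqrt 2
    linarith
  · intro y hy
    have h1 := hr2' (iota y) (Finset.mem_image_of_mem _ hy)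
    change (q : ℝ) + (k : ℝ) * Real.sqrt 2 < iota y
    linarith

theorem across (f : Finset (W × W)) (hf : ∀ p ∈ f, ∀ q ∈ f, cmp p.1 q.1 = cmp p.2 q.2) (a : W) (k : ℕ)
    (hk : ∀ b, (a, b) ∈ f → color b = k) : ∃ b, color b = k ∧ ∀ p ∈ f, cmp p.1 a = cmp p.2 b := by
  classical
  by_cases h : ∃ b, (a, b) ∈ f
  · obtain ⟨b, hb⟩ := h
    exact ⟨b, hk b hb, fun p hp => hf p hp _ hb⟩
  have key : ∀ x ∈ (f.filter fun p => p.1 < a).image Prod.snd,
      ∀ y ∈ (f.filter fun p => a < p.1).image Prod.snd, x < y := by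
    intro x hx y hy
    rw [Finset.mem_image] at hx hy
    rcases hx with ⟨p, hp1, rfl⟩
    rcases hy with ⟨q, hq1, rfl⟩
    rw [Finset.mem_filter] at hp1 hq1
    rw [← lt_iff_lt_of_cmp_eq_cmp (hf _ hp1.1 _ hq1.1)]
    exact lt_trans hp1.2 hq1.2
  obtain ⟨b, hbk, hb1, hb2⟩ := between k _ _ key
  refine ⟨b, hbk, ?_⟩
  rintro ⟨p1, p2⟩ hp
  have hne : p1 ≠ a := fun he => h ⟨p2, he ▸ hp⟩
  rcases lt_or_gt_of_ne hne with hl | hr
  · have : p1 < a ∧ p2 < b :=
      ⟨hl, hb1 _ (Finset.mem_image.mpr ⟨(p1, p2), Finset.mem_filter.mpr ⟨hp, hl⟩, rfl⟩)⟩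
    rw [← cmp_eq_lt_iff, ← cmp_eq_lt_iff] at this
    exact this.1.trans this.2.symm
  · have : a < p1 ∧ b < p2 :=
      ⟨hr, hb2 _ (Finset.mem_image.mpr ⟨(p1, p2), Finset.mem_filter.mpr ⟨hp, hr⟩, rfl⟩)⟩
    rw [← cmp_eq_gt_iff, ← cmp_eq_gt_iff] at this
    exact this.1.trans this.2.symm

/-- finite partial isomorphisms over the permutation `g` of the colours -/
def CPI (g : Equiv.Perm ℕ) : Type :=
  { f : Finset (W × W) // (∀ p ∈ f, ∀ q ∈ f, cmp p.1 q.1 = cmp p.2 q.2) ∧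
    ∀ p ∈ f, color p.2 = g (color p.1) }

instance (g : Equiv.Perm ℕ) : Preorder (CPI g) := Preorder.lift (fun f : CPI g => f.1)

theorem CPI.le_iff {g : Equiv.Perm ℕ} (f f' : CPI g) : f ≤ f' ↔ f.1 ⊆ f'.1 := Iff.rfl

def CPI.empty (g : Equiv.Perm ℕ) : CPI g :=
  ⟨∅, fun _ hp => absurd hp (Finset.notMem_empty _), fun _ hp => absurd hp (Finset.notMem_empty _)⟩

open Classical in
theorem CPI.extend (g : Equiv.Perm ℕ) (f : CPI g) (a b : W) (hab : ∀ p ∈ f.1, cmp p.1 a = cmp p.2 b)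
    (hc : color b = g (color a)) : ∃ f' : CPI g, f ≤ f' ∧ (a, b) ∈ f'.1 := by
  refine ⟨⟨insert (a, b) f.1, ?_, ?_⟩, (CPI.le_iff _ _).2 (Finset.subset_insert _ _), Finset.mem_insert_self _ _⟩
  · intro p hp q hq
    rw [Finset.mem_insert] at hp hq
    rcases hp with (rfl | pf) <;> rcases hq with (rfl | qf)
    · simp only [cmp_self_eq_eq]
    · rw [cmp_eq_cmp_symm]
      exact hab _ qf
    · exact hab _ pf
    · exact f.2.1 _ pf _ qf
  · intro p hp
    rw [Finset.mem_insert] at hp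
    rcases hp with rfl | pf
    · exact hc
    · exact f.2.2 _ pf

def defL (g : Equiv.Perm ℕ) (a : W) : Cofinal (CPI g) where
  carrier := {f | ∃ b : W, (a, b) ∈ f.1}
  isCofinal f := by
    obtain ⟨b, hb1, hb2⟩ := across f.1 f.2.1 a (g (color a)) (fun b hb => f.2.2 _ hb)
    obtain ⟨f', h1, h2⟩ := CPI.extend g f a b hb2 hb1
    exact ⟨f', ⟨b, h2⟩, h1⟩

open Classical in
def defR (g : Equiv.Perm ℕ) (b : W) : Cofinal (CPI g) where
  carrier := {f | ∃ a : W, (a, b) ∈ f.1}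
  isCofinal f := by
    obtain ⟨a, ha1, ha2⟩ := across (f.1.image Prod.swap) (by
      intro p hp q hq
      rw [Finset.mem_image] at hp hq
      obtain ⟨p', hp', rfl⟩ := hp
      obtain ⟨q', hq', rfl⟩ := hq
      exact (f.2.1 _ hp' _ hq').symm) b (g.symm (color b)) (by
      intro a ha
      rw [Finset.mem_image] at ha
      obtain ⟨p', hp', hpe⟩ := ha
      have h1 : p' = (a, b) := by
        rw [← Prod.swap_swap p', hpe]; rfl
      subst h1
      have := f.2.2 _ hp'
      simp only at this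
      rw [this, Equiv.symm_apply_apply])
    obtain ⟨f', h1, h2⟩ := CPI.extend g f a b (by
      intro p hp
      exact (ha2 p.swap (Finset.mem_image_of_mem _ hp)).symm) (by rw [ha1, Equiv.apply_symm_apply])
    exact ⟨f', ⟨a, h2⟩, h1⟩

/-- every permutation of the colours is induced by an automorphism of the order -/
theorem lift (g : Equiv.Perm ℕ) : ∃ h : W ≃o W, ∀ a, color (h a) = g (color a) := by
  classical
  obtain ⟨hE⟩ := nonempty_encodable W
  let to_cofinal : W ⊕ W → Cofinal (CPI g) := fun p => Sum.recOn p (defL g) (defR g)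
  let I : Ideal (CPI g) := idealOfCofinals (CPI.empty g) to_cofinal
  have hF : ∀ a : W, ∃ b, ∃ f ∈ I, (a, b) ∈ f.1 := by
    intro a
    obtain ⟨f, ⟨b, hb⟩, hf⟩ := cofinal_meets_idealOfCofinals (CPI.empty g) to_cofinal (Sum.inl a)
    exact ⟨b, f, hf, hb⟩
  have hG : ∀ b : W, ∃ a, ∃ f ∈ I, (a, b) ∈ f.1 := by
    intro b
    obtain ⟨f, ⟨a, ha⟩, hf⟩ := cofinal_meets_idealOfCofinals (CPI.empty g) to_cofinal (Sum.inr b)
    exact ⟨a, f, hf, ha⟩
  choose F hF using hF
  choose G hG using hG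
  refine ⟨OrderIso.ofCmpEqCmp F G fun a b => ?_, fun a => ?_⟩
  · obtain ⟨f, hf, ha⟩ := hF a
    obtain ⟨f', hf', hb⟩ := hG b
    obtain ⟨m, -, fm, gm⟩ := I.directed _ hf _ hf'
    exact m.2.1 (a, _) ((CPI.le_iff _ _).1 fm ha) (_, b) ((CPI.le_iff _ _).1 gm hb)
  · obtain ⟨f, hf, ha⟩ := hF a
    exact f.2.2 _ ha

end Pool.Agent.V1255F
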