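import Mathlib
import Pool.Agent.V1255F.Defs
import Pool.Agent.V1255F.Order

/-!
The class of countable structures carrying a linear order is Borel complete: replace the points of a
structure by the colours of a dense linear order all of whose colours are dense.
-/

set_option autoImplicit false

open MeasureTheory Set

namespace Pool.Agent.V1255F

/-- a fixed enumeration of the coloured order -/
noncomputable def enum : W ≃ ℕ := (nonempty_equiv_of_countable (α := W) (β := ℕ)).some

noncomputable def col (i : ℕ) : ℕ := color (enum.symm i)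

noncomputable def rep (a : ℕ) : ℕ := enum (((0, a) : ℚ × ℕ) : W)

theorem col_rep (a : ℕ) : col (rep a) = a := by
  unfold col rep
  rw [Equiv.symm_apply_apply]
  rfl

theorem lift_nat (g : Equiv.Perm ℕ) : ∃ h : Equiv.Perm ℕ,
    (∀ i j, enum.symm i < enum.symm j ↔ enum.symm (h i) < enum.symm (h j)) ∧ ∀ i, col (h i) = g (col i) := by
  obtain ⟨h, hh⟩ := lift g
  refine ⟨enum.symm.trans (h.toEquiv.trans enum), fun i j => ?_, fun i => ?_⟩
  · simp
  · unfold col
    simp [hh]

section Code

variable {L : FirstOrder.Language.{0, 0}} (ρ : ∀ n, L.Relations n → ℕ) (φ : ∀ n, L.Functions n → ℕ)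

/-- the relations of the coded structure -/
def codeRel (x : Mod L) (n k : ℕ) (v : Fin n → ℕ) : Prop :=
  (k = 0 ∧ ∃ h : n = 2, enum.symm (v (Fin.cast h.symm 0)) < enum.symm (v (Fin.cast h.symm 1))) ∨
  (k = 1 ∧ ∃ h : n = 2, col (v (Fin.cast h.symm 0)) = col (v (Fin.cast h.symm 1))) ∨
  (∃ R : L.Relations n, k = 2 * ρ n R + 2 ∧ x.2 n R fun i => col (v i)) ∨
  (∃ (m : ℕ) (h : n = m + 1) (F : L.Functions m), k = 2 * φ m F + 3 ∧
    x.1 m F (fun i => col (v (Fin.cast h.symm i.succ))) = col (v (Fin.cast h.symm 0)))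

/-- the coded structure -/
def code (x : Mod L) : Mod L0 := (fun _ F _ => Empty.elim F, fun n k v => codeRel ρ φ x n k v)

theorem codeRel_zero (x : Mod L) (v : Fin 2 → ℕ) :
    codeRel ρ φ x 2 0 v ↔ enum.symm (v 0) < enum.symm (v 1) := by
  unfold codeRel
  constructor
  · rintro (⟨-, h, h'⟩ | ⟨h, -⟩ | ⟨R, h, -⟩ | ⟨m, h, F, h', -⟩)
    · exact h'
    · omega
    · omega
    · omega
  · intro h
    exact Or.inl ⟨rfl, rfl, h⟩

theorem codeRel_one (x : Mod L) (v : Fin 2 → ℕ) : codeRel ρ φ x 2 1 v ↔ col (v 0) = col (v 1) := by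
  unfold codeRel
  constructor
  · rintro (⟨h, -⟩ | ⟨-, h, h'⟩ | ⟨R, h, -⟩ | ⟨m, h, F, h', -⟩)
    · omega
    · exact h'
    · omega
    · omega
  · intro h
    exact Or.inr (Or.inl ⟨rfl, rfl, h⟩)

theorem codeRel_rel (hρ : ∀ n, Function.Injective (ρ n)) (x : Mod L) (n : ℕ) (R : L.Relations n)
    (v : Fin n → ℕ) : codeRel ρ φ x n (2 * ρ n R + 2) v ↔ x.2 n R fun i => col (v i) := by
  unfold codeRel
  constructor
  · rintro (⟨h, -⟩ | ⟨h, -⟩ | ⟨R', h, h'⟩ | ⟨m, h, F, h', -⟩)
    · omega
    · omega
    · have : ρ n R = ρ n R' := by omega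
      rw [hρ n this]
      exact h'
    · omega
  · intro h
    exact Or.inr (Or.inr (Or.inl ⟨R, rfl, h⟩))

theorem codeRel_fun (hφ : ∀ n, Function.Injective (φ n)) (x : Mod L) (m : ℕ) (F : L.Functions m)
    (v : Fin (m + 1) → ℕ) : codeRel ρ φ x (m + 1) (2 * φ m F + 3) v ↔
      x.1 m F (fun i => col (v i.succ)) = col (v 0) := by
  unfold codeRel
  constructor
  · rintro (⟨h, -⟩ | ⟨h, -⟩ | ⟨R', h, h'⟩ | ⟨m', h, F', h', h''⟩)
    · omega
    · omega
    · omega
    · obtain rfl : m = m' := by omega
      have : φ m F = φ m F' := by omega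
      rw [hφ m this]
      exact h''
  · intro h
    exact Or.inr (Or.inr (Or.inr ⟨m, rfl, F, rfl, h⟩))

theorem code_ordered (x : Mod L) : code ρ φ x ∈ Ordered := by
  have h : ∀ a b, ordRel (code ρ φ x) a b ↔ enum.symm a < enum.symm b := by
    intro a b
    change codeRel ρ φ x 2 0 ![a, b] ↔ _
    exact codeRel_zero ρ φ x ![a, b]
  refine ⟨fun a => ?_, fun a b c => ?_, fun a b hab => ?_⟩
  · rw [h]; exact lt_irrefl _
  · rw [h, h, h]; exact lt_trans
  · rw [h, h]
    exact lt_or_gt_of_ne fun he => hab (enum.symm.injective he)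

theorem code_iso (x y : Mod L) (h : Isom x y) : Isom (code ρ φ x) (code ρ φ y) := by
  obtain ⟨g, hg⟩ := h
  rw [act_eq_iff] at hg
  obtain ⟨h, h1, h2⟩ := lift_nat g
  refine ⟨h, ?_⟩
  rw [act_eq_iff]
  refine ⟨fun n F => Empty.elim F, fun n k v => ?_⟩
  change codeRel ρ φ x n k v ↔ codeRel ρ φ y n k fun i => h (v i)
  unfold codeRel
  refine or_congr ?_ (or_congr ?_ (or_congr ?_ ?_))
  · refine and_congr_right fun _ => exists_congr fun e => ?_
    exact h1 _ _
  · refine and_congr_right fun _ => exists_congr fun e => ?_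
    rw [h2, h2]
    exact g.injective.eq_iff.symm
  · refine exists_congr fun R => and_congr_right fun _ => ?_
    rw [hg.2 n R]
    simp only [h2]
  · refine exists_congr fun m => exists_congr fun e => exists_congr fun F => and_congr_right fun _ => ?_
    simp only [h2]
    rw [hg.1 m F]
    exact g.injective.eq_iff.symm

theorem iso_of_code (hρ : ∀ n, Function.Injective (ρ n)) (hφ : ∀ n, Function.Injective (φ n))
    (x y : Mod L) (h : Isom (code ρ φ x) (code ρ φ y)) : Isom x y := by
  obtain ⟨h, hh⟩ := h
  rw [act_eq_iff] at hh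
  have hR : ∀ n k (v : Fin n → ℕ), codeRel ρ φ x n k v ↔ codeRel ρ φ y n k fun i => h (v i) :=
    fun n k v => hh.2 n k v
  have hcol : ∀ i j, col i = col j ↔ col (h i) = col (h j) := by
    intro i j
    have := hR 2 1 ![i, j]
    rw [codeRel_one, codeRel_one] at this
    simpa using this
  have hg : ∀ i, col (h i) = col (h (rep (col i))) := by
    intro i
    exact (hcol _ _).1 (col_rep _).symm
  let g : Equiv.Perm ℕ := Equiv.ofBijective (fun a => col (h (rep a))) (by
    constructor
    · intro a b hab
      have := (hcol (rep a) (rep b)).2 hab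
      rwa [col_rep, col_rep] at this
    · intro b
      refine ⟨col (h.symm (rep b)), ?_⟩
      change col (h (rep (col (h.symm (rep b))))) = b
      rw [← hg, Equiv.apply_symm_apply, col_rep])
  have hg' : ∀ i, col (h i) = g (col i) := fun i => hg i
  refine ⟨g, ?_⟩
  rw [act_eq_iff]
  refine ⟨fun m F w => ?_, fun n R w => ?_⟩
  · have := hR (m + 1) (2 * φ m F + 3) (Fin.cons (rep (x.1 m F w)) fun i => rep (w i))
    rw [codeRel_fun ρ φ hφ, codeRel_fun ρ φ hφ] at this
    simp only [Fin.cons_succ, Fin.cons_zero, col_rep, hg'] at this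
    exact this.1 trivial
  · have := hR n (2 * ρ n R + 2) fun i => rep (w i)
    rw [codeRel_rel ρ φ hρ, codeRel_rel ρ φ hρ] at this
    simp only [col_rep, hg'] at this
    exact this

theorem measurable_code (hL : CountableLang L) : Measurable (code ρ φ : Mod L → Mod L0) := by
  refine Measurable.prodMk (measurable_pi_iff.2 fun n => measurable_pi_iff.2 fun F => Empty.elim F)
    (measurable_pi_iff.2 fun n => measurable_pi_iff.2 fun k => measurable_pi_iff.2 fun v => ?_)
  change Measurable fun x : Mod L => codeRel ρ φ x n k v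
  have hR : ∀ n, Countable (L.Relations n) := hL.2
  have hF : ∀ n, Countable (L.Functions n) := hL.1
  unfold codeRel
  refine measurable_const.or (measurable_const.or (Measurable.or ?_ ?_))
  · refine Measurable.exists fun R => measurable_const.and ?_
    exact measurable_rel n R _
  · refine Measurable.exists fun m => Measurable.exists fun h => Measurable.exists fun F =>
      measurable_const.and ?_
    exact measurableSet_setOfPred.1 (measurable_fun m F _ (measurableSet_singleton _))

end Code

/-- The class of the countable structures with a linear order is Borel complete. -/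
theorem ordered_complete : BorelComplete Ordered := by
  refine ⟨isClass_ordered, fun L hL C' _ => ?_⟩
  have hR : ∀ n, ∃ ρ : L.Relations n → ℕ, Function.Injective ρ := fun n =>
    have := hL.2 n
    exists_injective_nat _
  have hF : ∀ n, ∃ φ : L.Functions n → ℕ, Function.Injective φ := fun n =>
    have := hL.1 n
    exists_injective_nat _
  choose ρ hρ using hR
  choose φ hφ using hF
  refine ⟨fun x => ⟨code ρ φ x, code_ordered ρ φ x⟩, ?_, fun x y => ⟨?_, ?_⟩⟩
  · exact ((measurable_code ρ φ hL).comp measurable_subtype_coe).subtype_mk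
  · exact code_iso ρ φ _ _
  · exact iso_of_code ρ φ hρ hφ _ _

/-- The class of all `L0`-structures is Borel complete. -/
theorem univ_complete : BorelComplete (Set.univ : Set (Mod L0)) := by
  refine ⟨isClass_univ, fun L hL C' hC' => ?_⟩
  obtain ⟨f, hf, h⟩ := ordered_complete.2 L hL C' hC'
  exact ⟨fun x => ⟨(f x).1, trivial⟩, (measurable_subtype_coe.comp hf).subtype_mk, h⟩

end Pool.Agent.V1255F
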