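import Mathlib
import Pool.Agent.V1255F.Defs
import Pool.Agent.Helper212.NonBorel

/-!
A Borel family of pairs of structures `MS τ 0`, `MS τ 1`, indexed by trees `τ` on `ℕ`: every
automorphism of `MS τ 0` has square one, and `MS τ 0`, `MS τ 1` are isomorphic exactly when `τ` has
an infinite path.
-/

set_option autoImplicit false

open MeasureTheory Set
open Pool.Agent.Helper212.Sq (Node Tr br br_length HasPath)

namespace Pool.Agent.V1255F

abbrev V : Type := List ℕ →₀ ZMod 2
abbrev U : Type := ℕ × V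

theorem countable_V : Countable V := inferInstance

noncomputable def en : U ≃ ℕ := (nonempty_equiv_of_countable (α := U) (β := ℕ)).some

/-- `p = (n, a)` is a point of the level `n` of the torsor coded by the tree `τ`. -/
def Valid (τ : Tr) (p : U) : Prop := ∀ s ∈ p.2.support, s.length = p.1 ∧ (s = [] ∨ τ s = true)

/-- truncation -/
noncomputable def down (a : V) : V := a.mapDomain List.tail

def Dist (ε : ZMod 2) (p : U) : Prop := p = (0, Finsupp.single [] ε)

def Inv (τ : Tr) (u p : U) : Prop := p = u ∧ ¬ Valid τ u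

def Pr (τ : Tr) (p q : U) : Prop := Valid τ p ∧ Valid τ q ∧ p.1 = q.1 + 1 ∧ q.2 = down p.2

def Dif (τ : Tr) (u p q : U) : Prop := Valid τ p ∧ Valid τ q ∧ p.1 = u.1 ∧ q.1 = u.1 ∧ q.2 = p.2 + u.2

def tRel (τ : Tr) (ε : ZMod 2) : (n k : ℕ) → (Fin n → ℕ) → Prop
  | 1, 0, v => Dist ε (en.symm (v 0))
  | 1, k + 1, v => Inv τ (en.symm k) (en.symm (v 0))
  | 2, 0, v => Pr τ (en.symm (v 0)) (en.symm (v 1))
  | 2, k + 1, v => Dif τ (en.symm k) (en.symm (v 0)) (en.symm (v 1))
  | _, _, _ => False

/-- the structure -/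
def MS (τ : Tr) (ε : ZMod 2) : Mod L0 := (fun _ F _ => Empty.elim F, fun n k v => tRel τ ε n k v)

theorem tRel_iff {τ : Tr} {ε ε' : ZMod 2} {g : Equiv.Perm ℕ}
    (h1 : ∀ a, Dist ε (en.symm a) ↔ Dist ε' (en.symm (g a)))
    (h2 : ∀ u a, Inv τ u (en.symm a) ↔ Inv τ u (en.symm (g a)))
    (h3 : ∀ a b, Pr τ (en.symm a) (en.symm b) ↔ Pr τ (en.symm (g a)) (en.symm (g b)))
    (h4 : ∀ u a b, Dif τ u (en.symm a) (en.symm b) ↔ Dif τ u (en.symm (g a)) (en.symm (g b))) :
    ∀ (n k : ℕ) (v : Fin n → ℕ), tRel τ ε n k v ↔ tRel τ ε' n k (fun i => g (v i))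
  | 0, _, _ => Iff.rfl
  | 1, 0, _ => h1 _
  | 1, _ + 1, _ => h2 _ _
  | 2, 0, _ => h3 _ _
  | 2, _ + 1, _ => h4 _ _ _
  | _ + 3, _, _ => Iff.rfl

theorem act_MS_iff {τ : Tr} {ε ε' : ZMod 2} {g : Equiv.Perm ℕ} : act g (MS τ ε) = MS τ ε' ↔
    (∀ a, Dist ε (en.symm a) ↔ Dist ε' (en.symm (g a))) ∧
    (∀ u a, Inv τ u (en.symm a) ↔ Inv τ u (en.symm (g a))) ∧
    (∀ a b, Pr τ (en.symm a) (en.symm b) ↔ Pr τ (en.symm (g a)) (en.symm (g b))) ∧
    ∀ u a b, Dif τ u (en.symm a) (en.symm b) ↔ Dif τ u (en.symm (g a)) (en.symm (g b)) := by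
  rw [act_eq_iff]
  constructor
  · rintro ⟨-, h⟩
    refine ⟨fun a => h 1 (0 : ℕ) (fun _ => a), fun u a => ?_, fun a b => h 2 (0 : ℕ) ![a, b], fun u a b => ?_⟩
    · have := h 1 (en u + 1 : ℕ) (fun _ => a)
      have e : en.symm (en u) = u := Equiv.symm_apply_apply _ _
      rw [← e]
      exact this
    · have := h 2 (en u + 1 : ℕ) ![a, b]
      have e : en.symm (en u) = u := Equiv.symm_apply_apply _ _
      rw [← e]
      exact this
  · rintro ⟨h1, h2, h3, h4⟩
    refine ⟨fun n F v => Empty.elim F, fun n R v => ?_⟩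
    exact tRel_iff h1 h2 h3 h4 n R v

theorem add_self (a : V) : a + a = 0 := by
  ext s
  rw [Finsupp.add_apply, CharTwo.add_self_eq_zero, Finsupp.zero_apply]

theorem valid_zero (τ : Tr) (n : ℕ) : Valid τ (n, 0) := by
  intro s hs
  simp at hs

theorem Valid.add {τ : Tr} {n : ℕ} {a b : V} (ha : Valid τ (n, a)) (hb : Valid τ (n, b)) :
    Valid τ (n, a + b) := by
  intro s hs
  have : s ∈ a.support ∪ b.support := Finsupp.support_add hs
  rcases Finset.mem_union.1 this with h | h
  · exact ha s h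
  · exact hb s h

theorem down_add (a b : V) : down (a + b) = down a + down b := Finsupp.mapDomain_add

theorem down_zero : down 0 = 0 := Finsupp.mapDomain_zero

theorem exists_trans {τ : Tr} {ε ε' : ZMod 2} {g : Equiv.Perm ℕ} (h : act g (MS τ ε) = MS τ ε') :
    ∃ t : ℕ → V, (∀ n, Valid τ (n, t n)) ∧ (∀ n, t n = down (t (n + 1))) ∧
      Finsupp.single [] ε + t 0 = Finsupp.single [] ε' ∧
      (∀ p, ¬ Valid τ p → en.symm (g (en p)) = p) ∧
      ∀ p, Valid τ p → en.symm (g (en p)) = (p.1, p.2 + t p.1) := by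
  rw [act_MS_iff] at h
  obtain ⟨h1, h2, h3, h4⟩ := h
  have H1 : ∀ p : U, Dist ε p → Dist ε' (en.symm (g (en p))) := fun p hp => by
    have := (h1 (en p)).1
    rw [Equiv.symm_apply_apply] at this
    exact this hp
  have H2 : ∀ p : U, ¬ Valid τ p → en.symm (g (en p)) = p := fun p hp => by
    have := (h2 p (en p)).1
    rw [Equiv.symm_apply_apply] at this
    exact (this ⟨rfl, hp⟩).1
  have H3 : ∀ p q : U, Pr τ p q → Pr τ (en.symm (g (en p))) (en.symm (g (en q))) := fun p q hp => by
    have := (h3 (en p) (en q)).1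
    rw [Equiv.symm_apply_apply, Equiv.symm_apply_apply] at this
    exact this hp
  have H4 : ∀ u p q : U, Dif τ u p q → Dif τ u (en.symm (g (en p))) (en.symm (g (en q))) := fun u p q hp => by
    have := (h4 u (en p) (en q)).1
    rw [Equiv.symm_apply_apply, Equiv.symm_apply_apply] at this
    exact this hp
  have K : ∀ n : ℕ, Valid τ (en.symm (g (en (n, 0)))) ∧ (en.symm (g (en (n, 0)))).1 = n := fun n => by
    have := H4 (n, 0) (n, 0) (n, 0) ⟨valid_zero τ n, valid_zero τ n, rfl, rfl, by simp⟩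
    exact ⟨this.1, this.2.2.1⟩
  have K' : ∀ n : ℕ, en.symm (g (en (n, 0))) = (n, (en.symm (g (en (n, 0)))).2) := fun n =>
    Prod.ext (K n).2 rfl
  have K2 : ∀ p : U, Valid τ p → en.symm (g (en p)) = (p.1, p.2 + (en.symm (g (en (p.1, 0)))).2) := by
    rintro ⟨n, a⟩ hp
    have := H4 (n, a) (n, 0) (n, a) ⟨valid_zero τ n, hp, rfl, rfl, by simp⟩
    refine Prod.ext this.2.2.2.1 ?_
    rw [this.2.2.2.2, add_comm]
  refine ⟨fun n => (en.symm (g (en (n, 0)))).2, fun n => ?_, fun n => ?_, ?_, H2, K2⟩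
  · have := (K n).1
    rw [K' n] at this
    exact this
  · have := H3 (n + 1, 0) (n, 0) ⟨valid_zero τ _, valid_zero τ n, rfl, by rw [down_zero]⟩
    exact this.2.2.2
  · have hv : Valid τ (0, Finsupp.single [] ε) := by
      intro s hs
      have : s ∈ ({[]} : Finset (List ℕ)) := Finsupp.support_single_subset hs
      rw [Finset.mem_singleton] at this
      subst this
      exact ⟨rfl, Or.inl rfl⟩
    have a := H1 (0, Finsupp.single [] ε) rfl
    have b := K2 (0, Finsupp.single [] ε) hv
    rw [Dist, b] at a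
    exact congrArg Prod.snd a

theorem sq_one {τ : Tr} {ε ε' : ZMod 2} {g : Equiv.Perm ℕ} (h : act g (MS τ ε) = MS τ ε') : g * g = 1 := by
  obtain ⟨t, ht, -, -, h1, h2⟩ := exists_trans h
  ext a
  rw [Equiv.Perm.mul_apply, Equiv.Perm.one_apply]
  obtain ⟨p, rfl⟩ := en.surjective a
  apply en.symm.injective
  rw [Equiv.symm_apply_apply]
  by_cases hp : Valid τ p
  · have e := h2 p hp
    have e' : g (en p) = en (p.1, p.2 + t p.1) := by rw [← e, Equiv.apply_symm_apply]
    rw [e', h2 _ (Valid.add hp (ht p.1))]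
    refine Prod.ext rfl ?_
    change p.2 + t p.1 + t p.1 = p.2
    rw [add_assoc, add_self, add_zero]
  · have e := h1 p hp
    have e' : g (en p) = en p := by rw [← Equiv.apply_symm_apply en (g (en p)), e]
    rw [e', e]

theorem path_of_iso {τ : Tr} {g : Equiv.Perm ℕ} (h : act g (MS τ 0) = MS τ 1) : HasPath τ := by
  obtain ⟨t, ht, hd, h0, -, -⟩ := exists_trans h
  have h0' : t 0 = Finsupp.single [] 1 := by
    rw [← h0, Finsupp.single_zero, zero_add]
  have start : ([] : List ℕ) ∈ (t 0).support := by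
    rw [h0', Finsupp.mem_support_iff, Finsupp.single_eq_same]
    exact one_ne_zero
  have step : ∀ n (s : List ℕ), s ∈ (t n).support → ∃ i, (i :: s) ∈ (t (n + 1)).support := by
    intro n s hs
    rw [hd n] at hs
    have hs' := Finsupp.mapDomain_support hs
    rw [Finset.mem_image] at hs'
    obtain ⟨s', hs', e⟩ := hs'
    have hl := (ht (n + 1) s' hs').1
    cases s' with
    | nil => simp at hl
    | cons i s'' =>
      rw [List.tail_cons] at e
      subst e
      exact ⟨i, hs'⟩
  choose! F hF using step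
  let P : ℕ → List ℕ := fun k => Nat.rec [] (fun k s => F k s :: s) k
  have hP0 : P 0 = [] := rfl
  have hPs : ∀ k, P (k + 1) = F k (P k) :: P k := fun k => rfl
  have hmem : ∀ k, P k ∈ (t k).support := by
    intro k
    induction k with
    | zero => exact start
    | succ k ih => rw [hPs]; exact hF k _ ih
  refine ⟨P, fun k => ⟨_, hPs k⟩, fun k => ?_⟩
  rcases (ht (k + 1) _ (hmem (k + 1))).2 with h | h
  · rw [hPs] at h
    simp at h
  · exact h

/-- the translation by a coherent sequence -/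
theorem exists_iso {τ : Tr} {ε ε' : ZMod 2} (t : ℕ → V) (ht : ∀ n, Valid τ (n, t n))
    (hd : ∀ n, t n = down (t (n + 1))) (h0 : Finsupp.single [] ε + t 0 = Finsupp.single [] ε') :
    ∃ g : Equiv.Perm ℕ, act g (MS τ ε) = MS τ ε' := by
  classical
  let f : U → U := fun p => if Valid τ p then (p.1, p.2 + t p.1) else p
  have fv : ∀ p, Valid τ p → f p = (p.1, p.2 + t p.1) := fun p hp => if_pos hp
  have fi : ∀ p, ¬ Valid τ p → f p = p := fun p hp => if_neg hp
  have hv : ∀ p, Valid τ (f p) ↔ Valid τ p := by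
    intro p
    by_cases hp : Valid τ p
    · rw [fv p hp]
      exact ⟨fun _ => hp, fun _ => Valid.add hp (ht p.1)⟩
    · rw [fi p hp]
  have ff : ∀ p, f (f p) = p := by
    intro p
    by_cases hp : Valid τ p
    · rw [fv (f p) ((hv p).2 hp), fv p hp]
      refine Prod.ext rfl ?_
      change p.2 + t p.1 + t p.1 = p.2
      rw [add_assoc, add_self, add_zero]
    · rw [fi p hp, fi p hp]
  let G : U ≃ U := ⟨f, f, ff, ff⟩
  have h1 : ∀ p, Dist ε p → Dist ε' (f p) := by
    rintro p rfl
    have hv : Valid τ (0, Finsupp.single [] ε) := by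
      intro s hs
      have : s ∈ ({[]} : Finset (List ℕ)) := Finsupp.support_single_subset hs
      rw [Finset.mem_singleton] at this
      subst this
      exact ⟨rfl, Or.inl rfl⟩
    rw [fv _ hv]
    exact Prod.ext rfl h0
  have h1' : ∀ p, Dist ε' p → Dist ε (f p) := by
    rintro p rfl
    have hv : Valid τ (0, Finsupp.single [] ε') := by
      intro s hs
      have : s ∈ ({[]} : Finset (List ℕ)) := Finsupp.support_single_subset hs
      rw [Finset.mem_singleton] at this
      subst this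
      exact ⟨rfl, Or.inl rfl⟩
    rw [fv _ hv]
    refine Prod.ext rfl ?_
    change Finsupp.single [] ε' + t 0 = Finsupp.single [] ε
    rw [← h0, add_assoc, add_self, add_zero]
  have h2 : ∀ u p, Inv τ u p → Inv τ u (f p) := by
    rintro u p ⟨rfl, hp⟩
    exact ⟨fi p hp, hp⟩
  have h3 : ∀ p q, Pr τ p q → Pr τ (f p) (f q) := by
    rintro p q ⟨hp, hq, h, h'⟩
    refine ⟨(hv p).2 hp, (hv q).2 hq, ?_, ?_⟩
    · rw [fv p hp, fv q hq]
      exact h
    · rw [fv p hp, fv q hq]
      change q.2 + t q.1 = down (p.2 + t p.1)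
      rw [down_add, ← h', h, ← hd]
  have h4 : ∀ u p q, Dif τ u p q → Dif τ u (f p) (f q) := by
    rintro u p q ⟨hp, hq, h, h', h''⟩
    refine ⟨(hv p).2 hp, (hv q).2 hq, ?_, ?_, ?_⟩
    · rw [fv p hp]; exact h
    · rw [fv q hq]; exact h'
    · rw [fv p hp, fv q hq]
      change q.2 + t q.1 = p.2 + t p.1 + u.2
      rw [h, h', h'']
      abel
  refine ⟨en.symm.trans (G.trans en), ?_⟩
  rw [act_MS_iff]
  have eG : ∀ a, en.symm ((en.symm.trans (G.trans en)) a) = f (en.symm a) := fun a => by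
    simp [G]
  refine ⟨fun a => ?_, fun u a => ?_, fun a b => ?_, fun u a b => ?_⟩
  · rw [eG]
    refine ⟨h1 _, fun h => ?_⟩
    have := h1' _ h
    rwa [ff] at this
  · rw [eG]
    refine ⟨h2 _ _, fun h => ?_⟩
    have := h2 _ _ h
    rwa [ff] at this
  · rw [eG, eG]
    refine ⟨h3 _ _, fun h => ?_⟩
    have := h3 _ _ h
    rwa [ff, ff] at this
  · rw [eG, eG]
    refine ⟨h4 _ _ _, fun h => ?_⟩
    have := h4 _ _ _ h
    rwa [ff, ff] at this

theorem iso_of_branch {τ : Tr} {b : ℕ → ℕ} (h : ∀ n, τ (br b n) = true) :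
    ∃ g : Equiv.Perm ℕ, act g (MS τ 0) = MS τ 1 := by
  refine exists_iso (fun n => Finsupp.single (br b n) 1) (fun n s hs => ?_) (fun n => ?_) ?_
  · have : s ∈ ({br b n} : Finset (List ℕ)) := Finsupp.support_single_subset hs
    rw [Finset.mem_singleton] at this
    subst this
    exact ⟨br_length b n, Or.inr (h n)⟩
  · change _ = Finsupp.mapDomain List.tail (Finsupp.single (br b (n + 1)) 1)
    rw [Finsupp.mapDomain_single]
    rfl
  · rw [Finsupp.single_zero, zero_add]
    rfl

theorem measurableSet_valid (p : U) : MeasurableSet {τ : Tr | Valid τ p} := by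
  have e : {τ : Tr | Valid τ p} = ⋂ s : List ℕ, ({τ : Tr | s ∉ p.2.support} ∪
      ({τ : Tr | s.length = p.1} ∩ ({τ : Tr | s = []} ∪ {τ : Tr | τ s = true}))) := by
    ext τ
    simp only [Valid, mem_ofPred_eq, mem_iInter, mem_union, mem_inter_iff]
    refine forall_congr' fun s => ?_
    tauto
  rw [e]
  refine MeasurableSet.iInter fun s => (MeasurableSet.const _).union
    ((MeasurableSet.const _).inter ((MeasurableSet.const _).union ?_))
  have : Measurable fun τ : Tr => τ s := measurable_pi_apply s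
  exact this (measurableSet_singleton true)

theorem measurable_tRel (ε : ZMod 2) : ∀ (n k : ℕ) (v : Fin n → ℕ),
    MeasurableSet {τ : Tr | tRel τ ε n k v}
  | 0, _, _ => MeasurableSet.const False
  | 1, 0, v => MeasurableSet.const (Dist ε (en.symm (v 0)))
  | 1, k + 1, v =>
    (MeasurableSet.const (en.symm (v 0) = en.symm k)).inter (measurableSet_valid _).compl
  | 2, 0, v =>
    (measurableSet_valid _).inter ((measurableSet_valid _).inter ((MeasurableSet.const _).inter
      (MeasurableSet.const _)))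
  | 2, k + 1, v =>
    (measurableSet_valid _).inter ((measurableSet_valid _).inter ((MeasurableSet.const _).inter
      ((MeasurableSet.const _).inter (MeasurableSet.const _))))
  | _ + 3, _, _ => MeasurableSet.const False

theorem measurable_MS (ε : ZMod 2) : Measurable fun τ : Tr => MS τ ε := by
  refine Measurable.prodMk ?_ ?_
  · refine measurable_pi_lambda _ fun n => measurable_pi_lambda _ fun F => Empty.elim F
  · refine measurable_pi_lambda _ fun n => measurable_pi_lambda _ fun k => measurable_pi_lambda _ fun v => ?_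
    exact measurableSet_setOfPred.1 (measurable_tRel ε n k v)

end Pool.Agent.V1255F
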