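import Mathlib
import Pool.Agent.V1255F.Defs
import Pool.Agent.V1255F.Torsor

/-!
No Borel functor reduces the groupoid of all countable structures to the groupoid of a class of
structures whose automorphism groups have no elements of order two.
-/

set_option autoImplicit false

open MeasureTheory Set
open Pool.Agent.Helper212.Sq (Node Tr br br_length HasPath exists_tree exists_analytic_not_measurable)

namespace Pool.Agent.V1255F

theorem measurable_eval (n : ℕ) : Measurable fun g : Equiv.Perm ℕ => g n :=
  (measurable_pi_apply n).comp (comap_measurable _)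

theorem measurableSet_act {L : FirstOrder.Language.{0, 0}} (hL : CountableLang L) {Z : Type*} [MeasurableSpace Z]
    {G : Z → Equiv.Perm ℕ} {X Y : Z → Mod L} (hG : Measurable G) (hX : Measurable X) (hY : Measurable Y) :
    MeasurableSet {z | act (G z) (X z) = Y z} := by
  obtain ⟨hF, hR⟩ := hL
  have hg : ∀ a b, MeasurableSet {z | G z a = b} := fun a b =>
    ((measurable_eval a).comp hG) (measurableSet_singleton b)
  have hgw : ∀ (n : ℕ) (v w : Fin n → ℕ), MeasurableSet {z | ∀ i, G z (v i) = w i} := fun n v w => by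
    have : {z | ∀ i, G z (v i) = w i} = ⋂ i, {z | G z (v i) = w i} := by
      ext z; simp
    rw [this]
    exact MeasurableSet.iInter fun i => hg _ _
  have e : {z | act (G z) (X z) = Y z} =
      (⋂ n, ⋂ F : L.Functions n, ⋂ v : Fin n → ℕ, ⋃ w : Fin n → ℕ, ({z | ∀ i, G z (v i) = w i} ∩
        ⋃ c : ℕ, ({z | (X z).1 n F v = c} ∩ ⋃ d : ℕ, ({z | G z c = d} ∩ {z | (Y z).1 n F w = d})))) ∩
      ⋂ n, ⋂ R : L.Relations n, ⋂ v : Fin n → ℕ, ⋃ w : Fin n → ℕ, ({z | ∀ i, G z (v i) = w i} ∩
        {z | (X z).2 n R v ↔ (Y z).2 n R w}) := by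
    ext z
    simp only [mem_ofPred_eq, mem_inter_iff, mem_iInter, mem_iUnion]
    rw [act_eq_iff]
    refine and_congr ?_ ?_
    · refine forall_congr' fun n => forall_congr' fun F => forall_congr' fun v => ?_
      constructor
      · intro h
        exact ⟨fun i => G z (v i), fun i => rfl, _, rfl, _, rfl, h⟩
      · rintro ⟨w, hw, c, hc, d, hd, h⟩
        have : (fun i => G z (v i)) = w := funext hw
        rw [this, h, hc, hd]
    · refine forall_congr' fun n => forall_congr' fun R => forall_congr' fun v => ?_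
      constructor
      · intro h
        exact ⟨fun i => G z (v i), fun i => rfl, h⟩
      · rintro ⟨w, hw, h⟩
        have : (fun i => G z (v i)) = w := funext hw
        rw [this]
        exact h
  rw [e]
  refine MeasurableSet.inter ?_ ?_
  · refine MeasurableSet.iInter fun n => ?_
    have := hF n
    refine MeasurableSet.iInter fun F => MeasurableSet.iInter fun v => MeasurableSet.iUnion fun w =>
      (hgw n v w).inter (MeasurableSet.iUnion fun c => MeasurableSet.inter ?_
        (MeasurableSet.iUnion fun d => (hg c d).inter ?_))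
    · exact ((measurable_fun n F v).comp hX) (measurableSet_singleton c)
    · exact ((measurable_fun n F w).comp hY) (measurableSet_singleton d)
  · refine MeasurableSet.iInter fun n => ?_
    have := hR n
    refine MeasurableSet.iInter fun R => MeasurableSet.iInter fun v => MeasurableSet.iUnion fun w =>
      (hgw n v w).inter ?_
    have h1 : Measurable fun z => (X z).2 n R v := (measurable_rel n R v).comp hX
    have h2 : Measurable fun z => (Y z).2 n R w := (measurable_rel n R w).comp hY
    exact measurableSet_setOfPred.2 (h1.iff h2)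

/-- a standard Borel copy of `S_∞` -/
abbrev P : Type := {f : ℕ → ℕ // Function.Bijective f}

theorem measurableSet_bij : MeasurableSet {f : ℕ → ℕ | Function.Bijective f} := by
  have h : ∀ a b, MeasurableSet {f : ℕ → ℕ | f a = b} := fun a b => by
    have : Measurable fun f : ℕ → ℕ => f a := measurable_pi_apply a
    exact this (measurableSet_singleton b)
  have h' : ∀ a b, MeasurableSet {f : ℕ → ℕ | f a = f b} := fun a b =>
    measurableSet_eq_fun (measurable_pi_apply a) (measurable_pi_apply b)
  have e : {f : ℕ → ℕ | Function.Bijective f} =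
      (⋂ a, ⋂ b, ({f : ℕ → ℕ | f a = f b}ᶜ ∪ {f : ℕ → ℕ | a = b})) ∩ ⋂ b, ⋃ a, {f : ℕ → ℕ | f a = b} := by
    ext f
    simp only [Function.Bijective, Function.Injective, Function.Surjective, mem_ofPred_eq, mem_inter_iff,
      mem_iInter, mem_iUnion, mem_union, mem_compl_iff]
    refine and_congr_left fun _ => forall_congr' fun a => forall_congr' fun b => ?_
    tauto
  rw [e]
  exact (MeasurableSet.iInter fun a => MeasurableSet.iInter fun b =>
    (h' a b).compl.union (MeasurableSet.const _)).inter
    (MeasurableSet.iInter fun b => MeasurableSet.iUnion fun a => h a b)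

instance instStandardP : StandardBorelSpace P := measurableSet_bij.standardBorel

noncomputable def toPerm (f : P) : Equiv.Perm ℕ := Equiv.ofBijective f.1 f.2

theorem measurable_toPerm : Measurable toPerm := by
  refine measurable_comap_iff.2 ?_
  exact measurable_subtype_coe

theorem toPerm_surj (g : Equiv.Perm ℕ) : toPerm ⟨g, g.bijective⟩ = g := by
  ext n
  rfl

theorem not_reducible {L : FirstOrder.Language.{0, 0}} (hL : CountableLang L) (D : Set (Mod L))
    (hD : ∀ x ∈ D, ∀ g : Equiv.Perm ℕ, act g x = x → g * g = 1 → g = 1) :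
    ¬ GroupoidReducible (univ : Set (Mod L0)) D := by
  rintro ⟨obj, arr, hmeas, htar, hid, hcomp, hred⟩
  have hid := hid
  obtain ⟨A, hA, hAm⟩ := exists_analytic_not_measurable
  obtain ⟨θ, hθ, hθ1, hθ2⟩ := exists_tree A hA
  have hθm : Measurable θ := hθ.measurable
  let M : ZMod 2 → (ℕ → ℕ) → (univ : Set (Mod L0)) := fun ε y => ⟨MS (θ y) ε, trivial⟩
  have hM : ∀ ε, Measurable (M ε) := fun ε => ((measurable_MS ε).comp hθm).subtype_mk
  have hiso : ∀ y, y ∈ A ↔ ∃ g, act g (M 0 y : Mod L0) = M 1 y := by
    intro y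
    constructor
    · intro hy
      obtain ⟨b, hb⟩ := hθ1 y hy
      exact iso_of_branch hb
    · rintro ⟨g, hg⟩
      exact hθ2 y (path_of_iso hg)
  -- the arrow between the images does not depend on the isomorphism
  have key : ∀ y (g g' : Equiv.Perm ℕ), act g (M 0 y : Mod L0) = M 1 y → act g' (M 0 y : Mod L0) = M 1 y →
      arr (g', M 0 y) = arr (g, M 0 y) := by
    intro y g g' hg hg'
    have ha : act (g⁻¹ * g') (M 0 y : Mod L0) = M 0 y := by
      rw [act_mul, hg', ← hg, ← act_mul, inv_mul_cancel, act_one]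
    have ha2 : (g⁻¹ * g') * (g⁻¹ * g') = 1 := sq_one ha
    have hα2 : arr (g⁻¹ * g', M 0 y) * arr (g⁻¹ * g', M 0 y) = 1 := by
      rw [← hcomp _ _ _ _ ha, ha2, hid]
    have hα : arr (g⁻¹ * g', M 0 y) = 1 := hD _ (obj (M 0 y)).2 _ (htar _ _ _ ha) hα2
    have : g' = g * (g⁻¹ * g') := by group
    rw [this, hcomp _ _ _ _ ha, hα, mul_one]
  have harr : Measurable arr := hmeas.fst
  have hobj : Measurable fun x => (obj x : Mod L) := by
    have : Measurable fun x : (univ : Set (Mod L0)) => obj ((1 : Equiv.Perm ℕ), x).2 :=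
      hmeas.snd.comp (measurable_const.prodMk measurable_id)
    exact measurable_subtype_coe.comp this
  -- the analytic sets
  let S : ℕ → ℕ → Set (ℕ → ℕ) := fun n m =>
    {y | ∃ g, act g (M 0 y : Mod L0) = M 1 y ∧ arr (g, M 0 y) n = m}
  have hS : ∀ n m, AnalyticSet (S n m) := by
    intro n m
    let T : Set (P × (ℕ → ℕ)) := {z | act (toPerm z.1) (M 0 z.2 : Mod L0) = M 1 z.2} ∩
      {z | arr (toPerm z.1, M 0 z.2) n = m}
    have hT : MeasurableSet T := by
      refine MeasurableSet.inter ?_ ?_
      · exact measurableSet_act countable_L0 (measurable_toPerm.comp measurable_fst)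
          (measurable_subtype_coe.comp ((hM 0).comp measurable_snd))
          (measurable_subtype_coe.comp ((hM 1).comp measurable_snd))
      · have : Measurable fun z : P × (ℕ → ℕ) => arr (toPerm z.1, M 0 z.2) n :=
          (measurable_eval n).comp (harr.comp ((measurable_toPerm.comp measurable_fst).prodMk
            ((hM 0).comp measurable_snd)))
        exact this (measurableSet_singleton m)
    have e : S n m = Prod.snd '' T := by
      ext y
      constructor
      · rintro ⟨g, hg, h⟩
        refine ⟨(⟨g, g.bijective⟩, y), ⟨?_, ?_⟩, rfl⟩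
        · change act (toPerm ⟨g, g.bijective⟩) _ = _
          rw [toPerm_surj]
          exact hg
        · change arr (toPerm ⟨g, g.bijective⟩, M 0 y) n = m
          rw [toPerm_surj]
          exact h
      · rintro ⟨⟨f, y'⟩, ⟨h1, h2⟩, rfl⟩
        exact ⟨toPerm f, h1, h2⟩
    rw [e]
    exact hT.analyticSet_image measurable_snd
  have hdisj : ∀ n m m', m ≠ m' → Disjoint (S n m) (S n m') := by
    intro n m m' hne
    rw [Set.disjoint_left]
    rintro y ⟨g, hg, h⟩ ⟨g', hg', h'⟩
    apply hne
    rw [← h, ← h', key y g g' hg hg']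
  have hsep : ∀ n m m', ∃ u : Set (ℕ → ℕ), m ≠ m' → S n m ⊆ u ∧ Disjoint (S n m') u ∧ MeasurableSet u := by
    intro n m m'
    by_cases hne : m = m'
    · exact ⟨∅, fun h => absurd hne h⟩
    · obtain ⟨u, hu⟩ := (hS n m).measurablySeparable (hS n m') (hdisj n m m' hne)
      exact ⟨u, fun _ => hu⟩
  choose u hu using hsep
  let B : ℕ → ℕ → Set (ℕ → ℕ) := fun n m => ⋂ m', {y | m ≠ m' → y ∈ u n m m' ∧ y ∉ u n m' m}
  have hB : ∀ n m, MeasurableSet (B n m) := by
    intro n m
    refine MeasurableSet.iInter fun m' => ?_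
    by_cases hne : m = m'
    · have : {y | m ≠ m' → y ∈ u n m m' ∧ y ∉ u n m' m} = univ := by
        ext y
        simp [hne]
      rw [this]
      exact MeasurableSet.univ
    · have : {y | m ≠ m' → y ∈ u n m m' ∧ y ∉ u n m' m} = u n m m' ∩ (u n m' m)ᶜ := by
        ext y
        simp [hne]
      rw [this]
      exact (hu n m m' hne).2.2.inter (hu n m' m (Ne.symm hne)).2.2.compl
  have hSB : ∀ n m, S n m ⊆ B n m := by
    intro n m y hy
    refine mem_iInter.2 fun m' hne => ⟨(hu n m m' hne).1 hy, fun h => ?_⟩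
    exact (Set.disjoint_left.1 (hu n m' m (Ne.symm hne)).2.1) hy h
  have hBd : ∀ n m m' y, y ∈ B n m → y ∈ B n m' → m = m' := by
    intro n m m' y h h'
    by_contra hne
    exact (mem_iInter.1 h' m (Ne.symm hne)).2 (mem_iInter.1 h m' hne).1
  -- the Borel set whose injective projection is the analytic set `A`
  let W : Set ((ℕ → ℕ) × P) := {z | act (toPerm z.2) (obj (M 0 z.1) : Mod L) = obj (M 1 z.1)} ∩
    ⋂ n, ⋃ m, ({z | z.1 ∈ B n m} ∩ {z | z.2.1 n = m})
  have hW : MeasurableSet W := by
    refine MeasurableSet.inter ?_ ?_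
    · exact measurableSet_act hL (measurable_toPerm.comp measurable_snd)
        (hobj.comp ((hM 0).comp measurable_fst)) (hobj.comp ((hM 1).comp measurable_fst))
    · refine MeasurableSet.iInter fun n => MeasurableSet.iUnion fun m => MeasurableSet.inter ?_ ?_
      · exact measurable_fst (hB n m)
      · have : Measurable fun z : (ℕ → ℕ) × P => z.2.1 n :=
          (measurable_pi_apply n).comp (measurable_subtype_coe.comp measurable_snd)
        exact this (measurableSet_singleton m)
  have hWB : ∀ z ∈ W, ∀ n, z.1 ∈ B n (z.2.1 n) := by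
    intro z hz n
    obtain ⟨m, hm, hm'⟩ := mem_iUnion.1 (mem_iInter.1 hz.2 n)
    rw [mem_ofPred_eq] at hm'
    rw [hm']
    exact hm
  have hinj : InjOn Prod.fst W := by
    rintro ⟨y, f⟩ hz ⟨y', f'⟩ hz' (rfl : y = y')
    refine Prod.ext rfl (Subtype.ext (funext fun n => ?_))
    exact hBd n _ _ y (hWB _ hz n) (hWB _ hz' n)
  have himg : Prod.fst '' W = A := by
    ext y
    constructor
    · rintro ⟨⟨y', f⟩, hz, rfl⟩
      rw [hiso]
      exact hred _ _ ⟨toPerm f, hz.1⟩
    · intro hy
      obtain ⟨g, hg⟩ := (hiso y).1 hy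
      refine ⟨(y, ⟨arr (g, M 0 y), (arr (g, M 0 y)).bijective⟩), ⟨?_, ?_⟩, rfl⟩
      · change act (toPerm _) _ = _
        rw [toPerm_surj]
        exact htar _ _ _ hg
      · refine mem_iInter.2 fun n => mem_iUnion.2 ⟨arr (g, M 0 y) n, hSB n _ ⟨g, hg, rfl⟩, rfl⟩
  exact hAm (himg ▸ hW.image_of_measurable_injOn measurable_fst hinj)

/-- a linear order has no automorphism of order two -/
theorem ordered_rigid (x : Mod L0) (hx : x ∈ Ordered) (g : Equiv.Perm ℕ) (hg : act g x = x) (h2 : g * g = 1) :
    g = 1 := by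
  obtain ⟨h1, h3, h4⟩ := hx
  have hpres : ∀ a b, ordRel x a b → ordRel x (g a) (g b) := by
    intro a b hab
    have := ordRel_act g x (g a) (g b)
    rw [hg, Equiv.symm_apply_apply, Equiv.symm_apply_apply] at this
    exact this.2 hab
  have hgg : ∀ a, g (g a) = a := fun a => by
    rw [← Equiv.Perm.mul_apply, h2, Equiv.Perm.one_apply]
  ext a
  rw [Equiv.Perm.one_apply]
  by_contra hne
  rcases h4 _ _ hne with h | h
  · have := hpres _ _ h
    rw [hgg] at this
    exact h1 _ (h3 _ _ _ h this)
  · have := hpres _ _ h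
    rw [hgg] at this
    exact h1 _ (h3 _ _ _ h this)

end Pool.Agent.V1255F
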